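import Mathlib

/-! The symbol of a vector and the symbol `Fs` of a level: bounds and analyticity. -/

set_option autoImplicit false

namespace Pool.Agent.P.MP_f981b0_an.IS60

variable {E : Type*} [NormedAddCommGroup E] [NormedSpace ℂ E]

/-- The symbol `∑ ev (d ^ l g) t ^ l`. -/
noncomputable def hat (ev : E →L[ℂ] ℂ) (d : E →L[ℂ] E) (t : ℂ) (g : E) : ℂ :=
  ∑' l : ℕ, ev ((d ^ l) g) * t ^ l

/-- The symbol of `X + ∑ (1 - u) u ^ k c k / δ` as a function of `w`. -/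
noncomputable def Fs (ev : E →L[ℂ] ℂ) (d : E →L[ℂ] E) (a K : ℕ) (t1 δ : ℝ) (X : E) (c : ℕ → E)
    (w : ℂ) : ℂ :=
  hat ev d (t1 * w / (1 - w)) X +
    ∑ k ∈ Finset.range (K + 1), (1 - w ^ a) * (w ^ a) ^ k * hat ev d (t1 * w / (1 - w)) (c k) / δ

variable {ev : E →L[ℂ] ℂ} {d : E →L[ℂ] E} {e0 dd : ℝ}

theorem norm_ev_pow (he : ‖ev‖ ≤ e0) (hd : ‖d‖ ≤ dd) (l : ℕ) (g : E) :
    ‖ev ((d ^ l) g)‖ ≤ e0 * ‖g‖ * dd ^ l := by
  have h0 : 0 ≤ dd := (norm_nonneg _).trans hd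
  have h1 : ‖(d ^ l) g‖ ≤ dd ^ l * ‖g‖ := by
    induction l with
    | zero => simp
    | succ l ih =>
      rw [pow_succ', mul_apply_eq_comp, pow_succ', mul_assoc]
      exact (d.le_opNorm _).trans (mul_le_mul hd ih (norm_nonneg _) h0)
  calc ‖ev ((d ^ l) g)‖ ≤ ‖ev‖ * ‖(d ^ l) g‖ := ev.le_opNorm _
    _ ≤ e0 * (dd ^ l * ‖g‖) := mul_le_mul he h1 (norm_nonneg _) ((norm_nonneg _).trans he)
    _ = _ := by ring

theorem norm_term_le (he : ‖ev‖ ≤ e0) (hd : ‖d‖ ≤ dd) {t : ℂ} {q : ℝ} (ht : ‖t‖ * dd ≤ q)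
    (g : E) (l : ℕ) : ‖ev ((d ^ l) g) * t ^ l‖ ≤ e0 * ‖g‖ * q ^ l := by
  have h0 : 0 ≤ dd := (norm_nonneg _).trans hd
  have h1 : 0 ≤ e0 := (norm_nonneg _).trans he
  rw [norm_mul, norm_pow]
  calc _ ≤ e0 * ‖g‖ * dd ^ l * ‖t‖ ^ l :=
        mul_le_mul_of_nonneg_right (norm_ev_pow he hd l g) (by positivity)
    _ = e0 * ‖g‖ * (‖t‖ * dd) ^ l := by rw [mul_pow]; ring
    _ ≤ _ := by gcongr

theorem summable_hat (hd : ‖d‖ ≤ dd) {t : ℂ} (ht : ‖t‖ * dd < 1) (g : E) :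
    Summable fun l : ℕ => ev ((d ^ l) g) * t ^ l := by
  have h0 : 0 ≤ dd := (norm_nonneg _).trans hd
  exact Summable.of_norm_bounded
    ((summable_geometric_of_lt_one (by positivity) ht).mul_left (‖ev‖ * ‖g‖))
    (norm_term_le le_rfl hd le_rfl g)

theorem norm_hat_le (he : ‖ev‖ ≤ e0) (hd : ‖d‖ ≤ dd) {t : ℂ} (ht : ‖t‖ * dd ≤ 1 / 2) (g : E) :
    ‖hat ev d t g‖ ≤ 2 * e0 * ‖g‖ := by
  have h := tsum_of_norm_bounded (hasSum_geometric_two.mul_left (e0 * ‖g‖))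
    (norm_term_le he hd ht g)
  unfold hat
  linarith

theorem differentiableAt_hat (hd : ‖d‖ ≤ dd) {t : ℂ} (ht : ‖t‖ * dd ≤ 1 / 2) (g : E) :
    DifferentiableAt ℂ (fun t => hat ev d t g) t := by
  have hU : IsOpen {t : ℂ | ‖t‖ * dd < 3 / 4} := isOpen_lt (by fun_prop) continuous_const
  have h : DifferentiableOn ℂ (fun t : ℂ => ∑' l : ℕ, ev ((d ^ l) g) * t ^ l)
      {t : ℂ | ‖t‖ * dd < 3 / 4} :=
    Complex.differentiableOn_tsum_of_summable_norm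
      (u := fun l => ‖ev‖ * ‖g‖ * (3 / 4 : ℝ) ^ l)
      ((summable_geometric_of_lt_one (by norm_num) (by norm_num)).mul_left _)
      (fun l => by fun_prop) hU (fun l w hw => norm_term_le le_rfl hd (le_of_lt hw) g l)
  exact h.differentiableAt (hU.mem_nhds (by simp only [Set.mem_ofPred_eq]; linarith))

theorem norm_t_le {a : ℕ} {t1 : ℝ} (ha : 1 ≤ a) (ht1 : 0 ≤ t1) {w : ℂ} (hw : ‖w‖ ≤ 1)
    (hw1 : 1 / (16 * (a : ℝ)) ≤ ‖1 - w‖) : ‖(t1 : ℂ) * w / (1 - w)‖ ≤ 16 * a * t1 := by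
  have ha' : (0 : ℝ) < a := by exact_mod_cast ha
  have h1 : 0 < ‖1 - w‖ := lt_of_lt_of_le (by positivity) hw1
  rw [norm_div, norm_mul, Complex.norm_real, Real.norm_of_nonneg ht1, div_le_iff₀ h1]
  rw [div_le_iff₀ (by positivity)] at hw1
  nlinarith [mul_le_mul_of_nonneg_left hw ht1, mul_le_mul_of_nonneg_left hw1 ht1]

/-- `Fs` is analytic and bounded where `‖w‖ ≤ 1` and `1 - w` is not small. -/
theorem Fs_bound (he : ‖ev‖ ≤ e0) (hd : ‖d‖ ≤ dd) {a K : ℕ} {t1 δ x0 : ℝ} (ha : 1 ≤ a)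
    (ht1 : 0 ≤ t1) (hs : 32 * a * t1 * dd ≤ 1) (hδ : 0 < δ) {X : E} {c : ℕ → E} (hX : ‖X‖ ≤ x0)
    (hc : ∀ k, k ≤ K → ‖c k‖ ≤ 1) {w : ℂ} (hw : ‖w‖ ≤ 1) (hw1 : 1 / (16 * (a : ℝ)) ≤ ‖1 - w‖) :
    DifferentiableAt ℂ (Fs ev d a K t1 δ X c) w ∧
      ‖Fs ev d a K t1 δ X c w‖ ≤ 2 * e0 * (x0 + 2 * (K + 1) / δ) := by
  have h0 : 0 ≤ dd := (norm_nonneg _).trans hd
  have h1 : 0 ≤ e0 := (norm_nonneg _).trans he
  have ha' : (0 : ℝ) < a := by exact_mod_cast ha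
  have hne : 1 - w ≠ 0 := norm_pos_iff.1 (lt_of_lt_of_le (by positivity) hw1)
  have ht : ‖(t1 : ℂ) * w / (1 - w)‖ * dd ≤ 1 / 2 := by
    have := mul_le_mul_of_nonneg_right (norm_t_le ha ht1 hw hw1) h0
    linarith
  have hT : DifferentiableAt ℂ (fun w : ℂ => (t1 : ℂ) * w / (1 - w)) w := by
    fun_prop (disch := exact hne)
  have hh : ∀ g : E, DifferentiableAt ℂ (fun w : ℂ => hat ev d (t1 * w / (1 - w)) g) w :=
    fun g => DifferentiableAt.comp (g := fun t => hat ev d t g) w (differentiableAt_hat hd ht g) hT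
  constructor
  · unfold Fs
    refine (hh X).add (DifferentiableAt.fun_sum fun k _ => ?_)
    exact ((by fun_prop : DifferentiableAt ℂ (fun w : ℂ => (1 - w ^ a) * (w ^ a) ^ k) w).mul
      (hh (c k))).div_const _
  · have hwa : ‖w ^ a‖ ≤ 1 := by rw [norm_pow]; exact pow_le_one₀ (norm_nonneg _) hw
    have hk : ∀ k ∈ Finset.range (K + 1),
        ‖(1 - w ^ a) * (w ^ a) ^ k * hat ev d (t1 * w / (1 - w)) (c k) / δ‖ ≤ 2 * (2 * e0) / δ := by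
      intro k hk
      have e1 : ‖1 - w ^ a‖ ≤ 2 := (norm_sub_le _ _).trans (by rw [norm_one]; linarith)
      have e2 : ‖(w ^ a) ^ k‖ ≤ 1 := by rw [norm_pow]; exact pow_le_one₀ (norm_nonneg _) hwa
      have e3 : ‖hat ev d (t1 * w / (1 - w)) (c k)‖ ≤ 2 * e0 :=
        (norm_hat_le he hd ht _).trans (by
          have := hc k (by simpa [Nat.lt_succ_iff] using hk)
          nlinarith)
      rw [norm_div, norm_mul, norm_mul, Complex.norm_real, Real.norm_of_nonneg hδ.le]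
      gcongr
      exact (mul_le_mul e1 e2 (norm_nonneg _) (by norm_num)).trans (by norm_num)
    have e4 := (norm_sum_le _ _).trans (Finset.sum_le_card_nsmul _ _ _ hk)
    rw [Finset.card_range, nsmul_eq_mul] at e4
    have e5 : ‖hat ev d (t1 * w / (1 - w)) X‖ ≤ 2 * e0 * x0 :=
      (norm_hat_le he hd ht _).trans (by gcongr)
    unfold Fs
    refine (norm_add_le _ _).trans ((add_le_add e5 e4).trans (le_of_eq ?_))
    push_cast; ring

end Pool.Agent.P.MP_f981b0_an.IS60
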